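import Pool.Agent.H384Z.Dom.Main

/-! A finite simple graph without isolated vertices whose domination polynomial has only real
roots is star-like. -/

namespace Pool.Agent.Results.MP_ce8257_co.AOboudi

open Pool.Agent.H384Z.Dom

theorem result (V : Type) [Fintype V] (G : SimpleGraph V) (hiso : ∀ v, ∃ w, G.Adj v w)
    (hreal : ∀ z : ℂ, (domPoly G).IsRoot z → z.im = 0) : StarLike G :=
  starLike_of_realRooted hiso hreal

end Pool.Agent.Results.MP_ce8257_co.AOboudi
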